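import Pool.Agent.CBG.StmtsA

/-!
# Squad CBG, row DTX: the data of the torus action in adapted coordinates
-/

set_option autoImplicit false
set_option maxSynthPendingDepth 3

open scoped Manifold ContDiff Topology
open Set Filter MeasureTheory

namespace Pool.Agent.CBG.H62

section

variable {n : ℕ} {E : Type} [TopologicalSpace E] [T2Space E] [ChartedSpace (Ed n) E]
  [IsManifold (𝓡 n) ∞ E] {Φ : ℝ × ℝ → E → E}

theorem psi_smooth (hΦ : TAct (n := n) Φ) {ψ : Ed n → E} (t : ℝ × ℝ) {y : Ed n}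
    (hy : ContMDiffAt 𝓘(ℝ, Ed n) (𝓡 n) ∞ ψ y) :
    ContMDiffAt 𝓘(ℝ, (ℝ × ℝ) × Ed n) (𝓡 n) ∞
      (fun q : (ℝ × ℝ) × Ed n => Φ q.1 (ψ q.2)) (t, y) := by
  have h1 : ContMDiffAt 𝓘(ℝ, (ℝ × ℝ) × Ed n) 𝓘(ℝ, ℝ × ℝ) ∞
      (fun q : (ℝ × ℝ) × Ed n => q.1) (t, y) := contDiff_fst.contMDiff.contMDiffAt
  have h2 : ContMDiffAt 𝓘(ℝ, (ℝ × ℝ) × Ed n) 𝓘(ℝ, Ed n) ∞
      (fun q : (ℝ × ℝ) × Ed n => q.2) (t, y) := contDiff_snd.contMDiff.contMDiffAt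
  have h3 : ContMDiffAt 𝓘(ℝ, (ℝ × ℝ) × Ed n) (𝓡 n) ∞
      (fun q : (ℝ × ℝ) × Ed n => ψ q.2) (t, y) :=
    ContMDiffAt.comp (t, y) hy h2
  have h4 := h1.prodMk h3
  exact ContMDiffAt.comp (t, y) (hΦ.smooth.contMDiffAt) h4

theorem md_psi {ψ : Ed n → E} {y : Ed n} (hy : ContMDiffAt 𝓘(ℝ, Ed n) (𝓡 n) ∞ ψ y) :
    MDifferentiableAt 𝓘(ℝ, Ed n) (𝓡 n) ψ y := hy.mdifferentiableAt (by simp)

theorem md_comp (hs : ∀ t, ContMDiff (𝓡 n) (𝓡 n) ∞ (Φ t)) {ψ : Ed n → E} (t : ℝ × ℝ) {y : Ed n}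
    (hy : MDifferentiableAt 𝓘(ℝ, Ed n) (𝓡 n) ψ y) :
    MDifferentiableAt 𝓘(ℝ, Ed n) (𝓡 n) (Φ t ∘ ψ) y :=
  ((hs t).contMDiffAt.mdifferentiableAt (by simp)).comp y hy

theorem mf_comp (hs : ∀ t, ContMDiff (𝓡 n) (𝓡 n) ∞ (Φ t)) {ψ : Ed n → E} (t : ℝ × ℝ) {y : Ed n}
    (hy : MDifferentiableAt 𝓘(ℝ, Ed n) (𝓡 n) ψ y) (v : Ed n) :
    mfderiv 𝓘(ℝ, Ed n) (𝓡 n) (Φ t ∘ ψ) y v =
      mfderiv (𝓡 n) (𝓡 n) (Φ t) (ψ y) (mfderiv 𝓘(ℝ, Ed n) (𝓡 n) ψ y v) := by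
  rw [mfderiv_comp y ((hs t).contMDiffAt.mdifferentiableAt (by simp)) hy]
  rfl

/-- the pull back by `Φ t ∘ ψ` as a part of the pull back by the map of all variables -/
theorem pull_slice (hPua : PuaStmt) (g : Met (n := n) E) (hΦ : TAct (n := n) Φ) {ψ : Ed n → E}
    (t : ℝ × ℝ) {y : Ed n} (hy : ContMDiffAt 𝓘(ℝ, Ed n) (𝓡 n) ∞ ψ y) (v w : Ed n) :
    pull g (Φ t ∘ ψ) y v w =
      pull g (fun q : (ℝ × ℝ) × Ed n => Φ q.1 (ψ q.2)) (t, y) ((0 : ℝ × ℝ), v)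
        ((0 : ℝ × ℝ), w) := by
  obtain ⟨-, -, -, -, h5⟩ := hPua n E g
  have e1 : (ContinuousLinearMap.inr ℝ (ℝ × ℝ) (Ed n)) y + (t, (0 : Ed n)) = (t, y) := by
    simp
  have hmd : MDifferentiableAt 𝓘(ℝ, (ℝ × ℝ) × Ed n) (𝓡 n)
      (fun q : (ℝ × ℝ) × Ed n => Φ q.1 (ψ q.2))
      ((ContinuousLinearMap.inr ℝ (ℝ × ℝ) (Ed n)) y + (t, (0 : Ed n))) := by
    rw [e1]
    exact (psi_smooth hΦ t hy).mdifferentiableAt (by simp)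
  have h := h5 (Ed n) ((ℝ × ℝ) × Ed n) (fun q : (ℝ × ℝ) × Ed n => Φ q.1 (ψ q.2))
    (ContinuousLinearMap.inr ℝ (ℝ × ℝ) (Ed n)) (t, (0 : Ed n)) y hmd v w
  rw [e1] at h
  have e2 : (fun z : Ed n => (fun q : (ℝ × ℝ) × Ed n => Φ q.1 (ψ q.2))
      ((ContinuousLinearMap.inr ℝ (ℝ × ℝ) (Ed n)) z + (t, (0 : Ed n)))) = Φ t ∘ ψ := by
    funext z
    simp
  rw [e2] at h
  exact h

theorem dtx_shift (hPua : PuaStmt) (g : Met (n := n) E) (hΦ : TAct (n := n) Φ)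
    (hs : ∀ t, ContMDiff (𝓡 n) (𝓡 n) ∞ (Φ t)) {ψ : Ed n → E} {X : ℝ × ℝ →L[ℝ] Ed n}
    (hψX : ∀ y t, ψ (y + X t) = Φ t (ψ y)) {y : Ed n}
    (hy : MDifferentiableAt 𝓘(ℝ, Ed n) (𝓡 n) ψ y) (t s : ℝ × ℝ) :
    pull g (Φ t ∘ ψ) (y + X s) = pull g (Φ (t + s) ∘ ψ) y := by
  obtain ⟨-, -, -, -, h5⟩ := hPua n E g
  have hmd0 : MDifferentiableAt 𝓘(ℝ, Ed n) (𝓡 n) ψ (y + X s) := by
    have e : ψ = (Φ s ∘ ψ) ∘ (fun z : Ed n => z - X s) := by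
      funext z
      have := hψX (z - X s) s
      rw [sub_add_cancel] at this
      exact this
    rw [e]
    have h1 : MDifferentiableAt 𝓘(ℝ, Ed n) 𝓘(ℝ, Ed n) (fun z : Ed n => z - X s) (y + X s) :=
      ((differentiable_id.sub_const (X s)) (y + X s)).mdifferentiableAt
    have h2 : MDifferentiableAt 𝓘(ℝ, Ed n) (𝓡 n) (Φ s ∘ ψ)
        ((fun z : Ed n => z - X s) (y + X s)) := by
      have : (fun z : Ed n => z - X s) (y + X s) = y := by simp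
      rw [this]
      exact md_comp hs s hy
    exact h2.comp (y + X s) h1
  have hmd := md_comp hs t hmd0
  apply ContinuousLinearMap.ext
  intro v
  apply ContinuousLinearMap.ext
  intro w
  have h := h5 (Ed n) (Ed n) (Φ t ∘ ψ) (ContinuousLinearMap.id ℝ (Ed n)) (X s) y hmd v w
  have e2 : (fun z : Ed n => (Φ t ∘ ψ) ((ContinuousLinearMap.id ℝ (Ed n)) z + X s)) =
      Φ (t + s) ∘ ψ := by
    funext z
    simp only [ContinuousLinearMap.id_apply, Function.comp_apply]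
    rw [hψX z s, hΦ.add t s]
  rw [e2] at h
  exact h.symm

theorem dtx_smooth (hPua : PuaStmt) (hPus : PusStmt) (g : Met (n := n) E) (hΦ : TAct (n := n) Φ)
    {ψ : Ed n → E} (hψ : Par ψ 0) (t : ℝ × ℝ) :
    ContDiffAt ℝ ∞ (fun q : (ℝ × ℝ) × Ed n => pull g (Φ q.1 ∘ ψ) q.2) (t, 0) := by
  have h0 : ContMDiffAt 𝓘(ℝ, Ed n) (𝓡 n) ∞ ψ 0 := hψ.1.self_of_nhds
  have h1 := hPus n E g ((ℝ × ℝ) × Ed n) (fun q : (ℝ × ℝ) × Ed n => Φ q.1 (ψ q.2)) (t, 0)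
    (psi_smooth hΦ t h0)
  have hev : ∀ᶠ q : (ℝ × ℝ) × Ed n in 𝓝 (t, 0), ContMDiffAt 𝓘(ℝ, Ed n) (𝓡 n) ∞ ψ q.2 := by
    have : Tendsto (fun q : (ℝ × ℝ) × Ed n => q.2) (𝓝 (t, 0)) (𝓝 0) :=
      continuous_snd.tendsto _
    exact this.eventually hψ.1
  have h2 : ContDiffAt ℝ ∞ (fun q : (ℝ × ℝ) × Ed n =>
      (pull g (fun q : (ℝ × ℝ) × Ed n => Φ q.1 (ψ q.2)) q).comp
        (ContinuousLinearMap.inr ℝ (ℝ × ℝ) (Ed n))) (t, 0) := h1.clm_comp contDiffAt_const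
  have h3 : ContDiffAt ℝ ∞ (fun q : (ℝ × ℝ) × Ed n =>
      ((pull g (fun q : (ℝ × ℝ) × Ed n => Φ q.1 (ψ q.2)) q).comp
        (ContinuousLinearMap.inr ℝ (ℝ × ℝ) (Ed n))).flip) (t, 0) :=
    (ContinuousLinearMap.flipₗᵢ ℝ (Ed n) ((ℝ × ℝ) × Ed n) ℝ).contDiff.contDiffAt.comp (t, 0) h2
  have h4 : ContDiffAt ℝ ∞ (fun q : (ℝ × ℝ) × Ed n =>
      (((pull g (fun q : (ℝ × ℝ) × Ed n => Φ q.1 (ψ q.2)) q).comp
        (ContinuousLinearMap.inr ℝ (ℝ × ℝ) (Ed n))).flip).comp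
          (ContinuousLinearMap.inr ℝ (ℝ × ℝ) (Ed n))) (t, 0) := h3.clm_comp contDiffAt_const
  have h5 : ContDiffAt ℝ ∞ (fun q : (ℝ × ℝ) × Ed n =>
      ((((pull g (fun q : (ℝ × ℝ) × Ed n => Φ q.1 (ψ q.2)) q).comp
        (ContinuousLinearMap.inr ℝ (ℝ × ℝ) (Ed n))).flip).comp
          (ContinuousLinearMap.inr ℝ (ℝ × ℝ) (Ed n))).flip) (t, 0) :=
    (ContinuousLinearMap.flipₗᵢ ℝ (Ed n) (Ed n) ℝ).contDiff.contDiffAt.comp (t, 0) h4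
  refine h5.congr_of_eventuallyEq ?_
  filter_upwards [hev] with q hq
  apply ContinuousLinearMap.ext
  intro v
  apply ContinuousLinearMap.ext
  intro w
  exact pull_slice hPua g hΦ q.1 hq v w

end

theorem dtx (hPua : PuaStmt) (hPus : PusStmt) (hVfx : VfxStmt) : DtxStmt := by
  intro n E _ _ _ _ Φ hΦ g ψ X hX hψ hψX hvf
  obtain ⟨hs, -, hinj, hvft, -, -⟩ := hVfx n E Φ hΦ
  obtain ⟨h1, h2, -, -, -⟩ := hPua n E g
  have hpar : ∀ t, Par (Φ t ∘ ψ) 0 := by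
    intro t
    refine ⟨?_, ?_⟩
    · filter_upwards [hψ.1] with y hy
      exact (hs t).contMDiffAt.comp y hy
    · have hy : MDifferentiableAt 𝓘(ℝ, Ed n) (𝓡 n) ψ 0 := md_psi hψ.1.self_of_nhds
      intro v w hvw
      rw [mf_comp hs t hy v, mf_comp hs t hy w] at hvw
      exact hψ.2 (hinj t (ψ 0) hvw)
  refine ⟨⟨hX, dtx_smooth hPua hPus g hΦ hψ, ?_, ?_, ?_, ?_, ?_⟩, hpar, ?_⟩
  · intro t y v w
    exact h1 (Ed n) (Φ t ∘ ψ) y v w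
  · intro t v hv
    exact h2 (Φ t ∘ ψ) 0 (hpar t).2 v hv
  · intro t y
    have : Φ (t + (1, 0)) = Φ t := by
      funext p
      rw [hΦ.add, hΦ.per1]
    simp only [this]
  · intro t y
    have : Φ (t + (0, 1)) = Φ t := by
      funext p
      rw [hΦ.add, hΦ.per2]
    simp only [this]
  · filter_upwards [hψ.1] with y hy
    intro t s
    exact dtx_shift hPua g hΦ hs hψX (md_psi hy) t s
  · filter_upwards [hψ.1, hvf] with y hy hv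
    intro t a b
    have ha : (show Ed n from mfderiv 𝓘(ℝ, Ed n) (𝓡 n) (Φ t ∘ ψ) y (X a)) =
        vf (n := n) Φ a (Φ t (ψ y)) := by
      have e := mf_comp hs t (md_psi hy) (X a)
      have e2 := hv a
      have e3 := hvft t a (ψ y)
      exact e.trans ((congrArg (mfderiv (𝓡 n) (𝓡 n) (Φ t) (ψ y)) e2).trans e3)
    have hb : (show Ed n from mfderiv 𝓘(ℝ, Ed n) (𝓡 n) (Φ t ∘ ψ) y (X b)) =
        vf (n := n) Φ b (Φ t (ψ y)) := by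
      have e := mf_comp hs t (md_psi hy) (X b)
      have e2 := hv b
      have e3 := hvft t b (ψ y)
      exact e.trans ((congrArg (mfderiv (𝓡 n) (𝓡 n) (Φ t) (ψ y)) e2).trans e3)
    unfold hh pull
    rw [ContinuousLinearMap.bilinearComp_apply]
    exact congrArg₂ (fun u v : Ed n => (show Bil (Ed n) from g.inner (Φ t (ψ y))) u v) ha hb

end Pool.Agent.CBG.H62
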